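import Pool.Agent.Helper47.KG.Packing

set_option autoImplicit false

open MeasureTheory

namespace Pool.Agent.Helper47.KG

variable {d : ℕ}

theorem geo_le_two (J : Finset ℕ) (τ : ℕ) :
    ∑ s ∈ J.filter (fun s => τ ≤ s), (1 / 2 : ℝ) ^ (s - τ) ≤ 2 := by
  have hinj : Set.InjOn (fun s => s - τ) (J.filter (fun s => τ ≤ s) : Set ℕ) := by
    intro a ha b hb hab
    have ha' : τ ≤ a := (Finset.mem_filter.mp ha).2
    have hb' : τ ≤ b := (Finset.mem_filter.mp hb).2
    simp only at hab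
    omega
  rw [← Finset.sum_image (f := fun k : ℕ => (1 / 2 : ℝ) ^ k) hinj]
  refine (Summable.sum_le_tsum _ (fun _ _ => by positivity) summable_geometric_two).trans ?_
  rw [tsum_geometric_two]

theorem geo_le_one (J : Finset ℕ) (t : ℕ) :
    ∑ s ∈ J.filter (fun s => s < t), (1 / 2 : ℝ) ^ (t - s) ≤ 1 := by
  have h1 : ∀ s ∈ J.filter (fun s => s < t),
      (1 / 2 : ℝ) ^ (t - s) = 1 / 2 * (1 / 2 : ℝ) ^ (t - s - 1) := by
    intro s hs
    have hs' : s < t := (Finset.mem_filter.mp hs).2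
    rw [← pow_succ']
    congr 1
    omega
  have hinj : Set.InjOn (fun s => t - s - 1) (J.filter (fun s => s < t) : Set ℕ) := by
    intro a ha b hb hab
    have ha' : a < t := (Finset.mem_filter.mp ha).2
    have hb' : b < t := (Finset.mem_filter.mp hb).2
    simp only at hab
    omega
  rw [Finset.sum_congr rfl h1, ← Finset.mul_sum,
    ← Finset.sum_image (f := fun k : ℕ => (1 / 2 : ℝ) ^ k) hinj]
  have := (Summable.sum_le_tsum ((J.filter (fun s => s < t)).image (fun s => t - s - 1))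
    (fun _ _ => by positivity) summable_geometric_two)
  rw [tsum_geometric_two] at this
  linarith

section

variable {W : Type*} (x : W → Fin d → ℝ) (r : W → ℝ) (τ : W → ℕ) (δ T : ℕ → ℝ)

/-- first packing bound: small balls of level `j` which meet a given ball -/
theorem small_balls (hr : ∀ w, 0 < r w) (hδ0 : ∀ j, 0 < δ j) (hT0 : ∀ j, 0 < T j)
    (j : ℕ) (V : Finset W) (hV : ∀ w ∈ V, δ (τ w) ≤ T j)
    (hdisj : (V : Set W).PairwiseDisjoint (fun w => Metric.ball (x w) (T j * r w)))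
    (y : Fin d → ℝ) {R : ℝ} (hR : 0 < R) (F : Finset W) (hF : F ⊆ V)
    (hF1 : ∀ w ∈ F, (Metric.ball (x w) (δ (τ w) * r w) ∩ Metric.ball y R).Nonempty)
    (hF2 : ∀ w ∈ F, T j * r w ≤ R) :
    ∑ w ∈ F, (2 * (δ j * r w)) ^ d ≤ (δ j / T j) ^ d * (3 ^ d * (2 * R) ^ d) := by
  have h1 : ∀ w ∈ F, (2 * (δ j * r w)) ^ d = (δ j / T j) ^ d * (2 * (T j * r w)) ^ d := by
    intro w _
    rw [← mul_pow]
    congr 1
    have := (hT0 j).ne'
    field_simp
  rw [Finset.sum_congr rfl h1, ← Finset.mul_sum]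
  apply mul_le_mul_of_nonneg_left _ (by
    have := hδ0 j
    have := hT0 j
    positivity)
  apply pack F x (fun w => T j * r w) y hR (fun w _ => mul_pos (hT0 j) (hr w)) hF2
  · exact hdisj.subset (by exact_mod_cast hF)
  · intro w hw
    refine (hF1 w hw).mono ?_
    apply Set.inter_subset_inter_left
    apply Metric.ball_subset_ball
    exact mul_le_mul_of_nonneg_right (hV w (hF hw)) (hr w).le

/-- second packing bound: large balls of level `j` which meet a given ball -/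
theorem large_balls (hr : ∀ w, 0 < r w) (hδ0 : ∀ j, 0 < δ j)
    (j : ℕ) (V : Finset W) (hV : ∀ w ∈ V, δ (τ w) ≤ T j)
    (hdisj : (V : Set W).PairwiseDisjoint (fun w => Metric.ball (x w) (T j * r w)))
    (y : Fin d → ℝ) {R ρ : ℝ} (hR : 0 < R) (hρ : 0 < ρ) (F : Finset W) (hF : F ⊆ V)
    (hF1 : ∀ w ∈ F, (Metric.ball (x w) (δ (τ w) * r w) ∩ Metric.ball y R).Nonempty)
    (hF2 : ∀ w ∈ F, R < T j * r w) (hF3 : ∀ w ∈ F, r w ≤ ρ) :
    ∑ w ∈ F, (2 * (δ j * r w)) ^ d ≤ 3 ^ d * (2 * (δ j * ρ)) ^ d := by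
  have hc : (F.card : ℝ) ≤ 3 ^ d := by
    apply pack_card F x (fun w => T j * r w) y hR hF2
    · exact hdisj.subset (by exact_mod_cast hF)
    · intro w hw
      refine (hF1 w hw).mono ?_
      apply Set.inter_subset_inter_left
      apply Metric.ball_subset_ball
      exact mul_le_mul_of_nonneg_right (hV w (hF hw)) (hr w).le
  have h1 : ∀ w ∈ F, (2 * (δ j * r w)) ^ d ≤ (2 * (δ j * ρ)) ^ d := by
    intro w hw
    have := hr w
    have := hδ0 j
    have := hF3 w hw
    gcongr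
  refine (Finset.sum_le_sum h1).trans ?_
  rw [Finset.sum_const, nsmul_eq_mul]
  have := hδ0 j
  exact mul_le_mul_of_nonneg_right hc (by positivity)

/-- the cross term of two levels `s < t` -/
theorem cross_bound (hr : ∀ w, 0 < r w) (hδ0 : ∀ j, 0 < δ j) (hT0 : ∀ j, 0 < T j)
    (hτr : ∀ v w, r v < r w → τ w ≤ τ v)
    (hδ : ∀ s t, s ≤ t → δ t ≤ (1 / 2 : ℝ) ^ (t - s) * δ s)
    (s t : ℕ) (Vs Vt : Finset W)
    (hs1 : ∀ w ∈ Vs, τ w ≤ s)
    (hs2 : ∀ w ∈ Vs, δ (τ w) ≤ T s) (ht2 : ∀ w ∈ Vt, δ (τ w) ≤ T t)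
    (hs3 : (Vs : Set W).PairwiseDisjoint (fun w => Metric.ball (x w) (T s * r w)))
    (ht3 : (Vt : Set W).PairwiseDisjoint (fun w => Metric.ball (x w) (T t * r w))) :
    ∑ v ∈ Vs, ∑ w ∈ Vt, ((δ s / δ (τ v)) ^ d) * ((δ t / δ (τ w)) ^ d) *
        volume.real (Metric.ball (x v) (δ (τ v) * r v) ∩ Metric.ball (x w) (δ (τ w) * r w))
      ≤ 3 ^ d * ((δ t / T t) ^ d * ∑ v ∈ Vs, (2 * (δ s * r v)) ^ d
        + (δ s / T s) ^ d * ∑ w ∈ Vt, (2 * (δ t * r w)) ^ d
        + ∑ v ∈ Vs, (2 * (δ t * r v)) ^ d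
        + ∑ w ∈ Vt.filter (fun w => τ w ≤ s), (δ s / δ (τ w)) ^ d * (2 * (δ t * r w)) ^ d) := by
  classical
  set H : W → Set (Fin d → ℝ) := fun w => Metric.ball (x w) (δ (τ w) * r w) with hH
  have hHpos : ∀ w, 0 < δ (τ w) * r w := fun w => mul_pos (hδ0 _) (hr w)
  have hvolH : ∀ w, volume.real (H w) = (2 * (δ (τ w) * r w)) ^ d := fun w =>
    vol_ball (x w) (hHpos w)
  set c : W → ℕ → ℝ := fun w j => (δ j / δ (τ w)) ^ d with hc
  have hc0 : ∀ w j, 0 ≤ c w j := fun w j => by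
    have := hδ0 j
    have := hδ0 (τ w)
    simp only [hc]
    positivity
  have hδmono : ∀ s t, s ≤ t → δ t ≤ δ s := by
    intro s t hst
    refine (hδ s t hst).trans ?_
    have h1 : (1 / 2 : ℝ) ^ (t - s) ≤ 1 := pow_le_one₀ (by norm_num) (by norm_num)
    have := (hδ0 s).le
    nlinarith
  have hc1 : ∀ w j, τ w ≤ j → c w j ≤ 1 := by
    intro w j hj
    apply pow_le_one₀
    · have := hδ0 j
      have := hδ0 (τ w)
      positivity
    · rw [div_le_one (hδ0 _)]
      exact hδmono _ _ hj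
  set h : W → ℕ → ℝ := fun w j => (2 * (δ j * r w)) ^ d with hh
  have hh0 : ∀ w j, 0 ≤ h w j := fun w j => by
    have := hδ0 j
    have := hr w
    simp only [hh]
    positivity
  -- |H^(j)| = c |H^*|
  have hch : ∀ w j, c w j * volume.real (H w) = h w j := by
    intro w j
    rw [hvolH]
    simp only [hc, hh]
    rw [← mul_pow]
    congr 1
    have := (hδ0 (τ w)).ne'
    field_simp
  have hch2 : ∀ w j, c w j * (2 * (δ (τ w) * r w)) ^ d = h w j := by
    intro w j
    rw [← hvolH]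
    exact hch w j
  have hfin : ∀ w, volume (H w) ≠ ⊤ := fun w => measure_ball_lt_top.ne
  -- the four parts
  set a1 : W → W → ℝ := fun v w => if (H w ∩ H v).Nonempty ∧ T t * r w ≤ δ (τ v) * r v then
    c v s * h w t else 0 with ha1
  set a2 : W → W → ℝ := fun v w => if (H v ∩ H w).Nonempty ∧ T s * r v ≤ δ (τ w) * r w then
    c w t * h v s else 0 with ha2
  set a3 : W → W → ℝ := fun v w => if (H w ∩ H v).Nonempty ∧ δ (τ v) * r v < T t * r w ∧
    r w ≤ r v then h w t else 0 with ha3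
  set a4 : W → W → ℝ := fun v w => if (H v ∩ H w).Nonempty ∧ δ (τ w) * r w < T s * r v ∧
    r v < r w then c w t * h v s else 0 with ha4
  have ha1' : ∀ v w, 0 ≤ a1 v w := by
    intro v w
    simp only [ha1]
    split_ifs
    · exact mul_nonneg (hc0 _ _) (hh0 _ _)
    · exact le_rfl
  have ha2' : ∀ v w, 0 ≤ a2 v w := by
    intro v w
    simp only [ha2]
    split_ifs
    · exact mul_nonneg (hc0 _ _) (hh0 _ _)
    · exact le_rfl
  have ha3' : ∀ v w, 0 ≤ a3 v w := by
    intro v w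
    simp only [ha3]
    split_ifs
    · exact hh0 _ _
    · exact le_rfl
  have ha4' : ∀ v w, 0 ≤ a4 v w := by
    intro v w
    simp only [ha4]
    split_ifs
    · exact mul_nonneg (hc0 _ _) (hh0 _ _)
    · exact le_rfl
  have hterm : ∀ v ∈ Vs, ∀ w ∈ Vt, c v s * c w t * volume.real (H v ∩ H w)
      ≤ a1 v w + a2 v w + a3 v w + a4 v w := by
    intro v hv w hw
    by_cases hne : (H v ∩ H w).Nonempty
    · have hne' : (H w ∩ H v).Nonempty := by rwa [Set.inter_comm]
      have b1 : c v s * c w t * volume.real (H v ∩ H w) ≤ c v s * h w t := by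
        rw [mul_assoc, ← hch w t]
        apply mul_le_mul_of_nonneg_left _ (hc0 _ _)
        exact mul_le_mul_of_nonneg_left (measureReal_mono Set.inter_subset_right (hfin w))
          (hc0 _ _)
      have b2 : c v s * c w t * volume.real (H v ∩ H w) ≤ c w t * h v s := by
        rw [mul_comm (c v s), mul_assoc, ← hch v s]
        apply mul_le_mul_of_nonneg_left _ (hc0 _ _)
        exact mul_le_mul_of_nonneg_left (measureReal_mono Set.inter_subset_left (hfin v))
          (hc0 _ _)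
      by_cases h1 : T t * r w ≤ δ (τ v) * r v
      · have e : a1 v w = c v s * h w t := if_pos ⟨hne', h1⟩
        have := ha2' v w
        have := ha3' v w
        have := ha4' v w
        linarith
      · by_cases h2 : T s * r v ≤ δ (τ w) * r w
        · have e : a2 v w = c w t * h v s := if_pos ⟨hne, h2⟩
          have := ha1' v w
          have := ha3' v w
          have := ha4' v w
          linarith
        · rw [not_le] at h1 h2
          by_cases h3 : r w ≤ r v
          · have e : a3 v w = h w t := if_pos ⟨hne', h1, h3⟩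
            have := ha1' v w
            have := ha2' v w
            have := ha4' v w
            have b3 : c v s * h w t ≤ h w t :=
              mul_le_of_le_one_left (hh0 _ _) (hc1 v s (hs1 v hv))
            linarith
          · rw [not_le] at h3
            have e : a4 v w = c w t * h v s := if_pos ⟨hne, h2, h3⟩
            have := ha1' v w
            have := ha2' v w
            have := ha3' v w
            linarith
    · rw [Set.not_nonempty_iff_eq_empty] at hne
      rw [hne, measureReal_empty, mul_zero]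
      have := ha1' v w
      have := ha2' v w
      have := ha3' v w
      have := ha4' v w
      linarith
  -- sums of the four parts
  have S1 : ∀ v ∈ Vs, ∑ w ∈ Vt, a1 v w ≤ 3 ^ d * ((δ t / T t) ^ d * h v s) := by
    intro v _
    have e : ∑ w ∈ Vt, a1 v w = c v s * ∑ w ∈ Vt.filter (fun w => (H w ∩ H v).Nonempty ∧
        T t * r w ≤ δ (τ v) * r v), h w t := by
      rw [Finset.mul_sum, Finset.sum_filter]
    rw [e]
    have := small_balls x r τ δ T hr hδ0 hT0 t Vt ht2 ht3 (x v) (hHpos v)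
      (Vt.filter (fun w => (H w ∩ H v).Nonempty ∧ T t * r w ≤ δ (τ v) * r v))
      (Finset.filter_subset _ _) (fun w hw => (Finset.mem_filter.mp hw).2.1)
      (fun w hw => (Finset.mem_filter.mp hw).2.2)
    refine (mul_le_mul_of_nonneg_left this (hc0 v s)).trans (le_of_eq ?_)
    rw [← hch2 v s]
    ring
  have S2 : ∀ w ∈ Vt, ∑ v ∈ Vs, a2 v w ≤ 3 ^ d * ((δ s / T s) ^ d * h w t) := by
    intro w _
    have e : ∑ v ∈ Vs, a2 v w = c w t * ∑ v ∈ Vs.filter (fun v => (H v ∩ H w).Nonempty ∧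
        T s * r v ≤ δ (τ w) * r w), h v s := by
      rw [Finset.mul_sum, Finset.sum_filter]
    rw [e]
    have := small_balls x r τ δ T hr hδ0 hT0 s Vs hs2 hs3 (x w) (hHpos w)
      (Vs.filter (fun v => (H v ∩ H w).Nonempty ∧ T s * r v ≤ δ (τ w) * r w))
      (Finset.filter_subset _ _) (fun w hw => (Finset.mem_filter.mp hw).2.1)
      (fun w hw => (Finset.mem_filter.mp hw).2.2)
    refine (mul_le_mul_of_nonneg_left this (hc0 w t)).trans (le_of_eq ?_)
    rw [← hch2 w t]
    ring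
  have S3 : ∀ v ∈ Vs, ∑ w ∈ Vt, a3 v w ≤ 3 ^ d * h v t := by
    intro v _
    have e : ∑ w ∈ Vt, a3 v w = ∑ w ∈ Vt.filter (fun w => (H w ∩ H v).Nonempty ∧
        δ (τ v) * r v < T t * r w ∧ r w ≤ r v), h w t := by
      rw [Finset.sum_filter]
    rw [e]
    exact large_balls x r τ δ T hr hδ0 t Vt ht2 ht3 (x v) (hHpos v) (hr v)
      (Vt.filter (fun w => (H w ∩ H v).Nonempty ∧ δ (τ v) * r v < T t * r w ∧ r w ≤ r v))
      (Finset.filter_subset _ _) (fun w hw => (Finset.mem_filter.mp hw).2.1)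
      (fun w hw => (Finset.mem_filter.mp hw).2.2.1) (fun w hw => (Finset.mem_filter.mp hw).2.2.2)
  have S4 : ∀ w ∈ Vt, ∑ v ∈ Vs, a4 v w ≤
      3 ^ d * (if τ w ≤ s then (δ s / δ (τ w)) ^ d * h w t else 0) := by
    intro w _
    have e : ∑ v ∈ Vs, a4 v w = c w t * ∑ v ∈ Vs.filter (fun v => (H v ∩ H w).Nonempty ∧
        δ (τ w) * r w < T s * r v ∧ r v < r w), h v s := by
      rw [Finset.mul_sum, Finset.sum_filter]
    rw [e]
    split_ifs with hw
    · have := large_balls x r τ δ T hr hδ0 s Vs hs2 hs3 (x w) (hHpos w) (hr w)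
        (Vs.filter (fun v => (H v ∩ H w).Nonempty ∧ δ (τ w) * r w < T s * r v ∧ r v < r w))
        (Finset.filter_subset _ _) (fun w hw => (Finset.mem_filter.mp hw).2.1)
        (fun w hw => (Finset.mem_filter.mp hw).2.2.1)
        (fun w hw => (Finset.mem_filter.mp hw).2.2.2.le)
      refine (mul_le_mul_of_nonneg_left this (hc0 w t)).trans (le_of_eq ?_)
      have hne := (hδ0 (τ w)).ne'
      have e2 : (δ t / δ (τ w)) * (2 * (δ s * r w)) = (δ s / δ (τ w)) * (2 * (δ t * r w)) := by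
        field_simp
      simp only [hc, hh]
      calc (δ t / δ (τ w)) ^ d * (3 ^ d * (2 * (δ s * r w)) ^ d)
          = 3 ^ d * ((δ t / δ (τ w)) * (2 * (δ s * r w))) ^ d := by rw [mul_pow]; ring
        _ = 3 ^ d * ((δ s / δ (τ w)) ^ d * (2 * (δ t * r w)) ^ d) := by rw [e2, mul_pow]
    · have hempty : Vs.filter (fun v => (H v ∩ H w).Nonempty ∧ δ (τ w) * r w < T s * r v ∧
          r v < r w) = ∅ := by
        apply Finset.filter_eq_empty_iff.mpr
        rintro v hv ⟨-, -, h3⟩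
        exact hw ((hτr v w h3).trans (hs1 v hv))
      rw [hempty]
      simp
  calc ∑ v ∈ Vs, ∑ w ∈ Vt, c v s * c w t * volume.real (H v ∩ H w)
      ≤ ∑ v ∈ Vs, ∑ w ∈ Vt, (a1 v w + a2 v w + a3 v w + a4 v w) :=
        Finset.sum_le_sum fun v hv => Finset.sum_le_sum fun w hw => hterm v hv w hw
    _ = ∑ v ∈ Vs, ∑ w ∈ Vt, a1 v w + ∑ w ∈ Vt, ∑ v ∈ Vs, a2 v w
        + ∑ v ∈ Vs, ∑ w ∈ Vt, a3 v w + ∑ w ∈ Vt, ∑ v ∈ Vs, a4 v w := by
        simp only [Finset.sum_add_distrib]
        rw [Finset.sum_comm (f := fun v w => a2 v w), Finset.sum_comm (f := fun v w => a4 v w)]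
    _ ≤ ∑ v ∈ Vs, 3 ^ d * ((δ t / T t) ^ d * h v s) + ∑ w ∈ Vt, 3 ^ d * ((δ s / T s) ^ d * h w t)
        + ∑ v ∈ Vs, 3 ^ d * h v t
        + ∑ w ∈ Vt, 3 ^ d * (if τ w ≤ s then (δ s / δ (τ w)) ^ d * h w t else 0) :=
        add_le_add (add_le_add (add_le_add (Finset.sum_le_sum S1) (Finset.sum_le_sum S2))
          (Finset.sum_le_sum S3)) (Finset.sum_le_sum S4)
    _ = _ := by
        rw [Finset.sum_filter]
        simp only [← Finset.mul_sum]
        ring

/-- the second moment bound -/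
theorem second_moment (hd : 1 ≤ d) (hr : ∀ w, 0 < r w) (hδ0 : ∀ j, 0 < δ j) (hT0 : ∀ j, 0 < T j)
    (hτr : ∀ v w, r v < r w → τ w ≤ τ v)
    (hδ : ∀ s t, s ≤ t → δ t ≤ (1 / 2 : ℝ) ^ (t - s) * δ s)
    (hT : ∀ s t, s ≤ t → T t ≤ (1 / 2 : ℝ) ^ (t - s) * T s)
    (J : Finset ℕ) (V : ℕ → Finset W)
    (h1 : ∀ j ∈ J, ∀ w ∈ V j, τ w ≤ j)
    (h2 : ∀ j ∈ J, ∀ w ∈ V j, δ (τ w) ≤ T j)
    (h3 : ∀ j ∈ J, (V j : Set W).PairwiseDisjoint (fun w => Metric.ball (x w) (T j * r w)))
    (B : Set (Fin d → ℝ)) (hB : volume B ≠ ⊤)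
    (hsub : ∀ j ∈ J, ∀ w ∈ V j, Metric.ball (x w) (T j * r w) ⊆ B)
    (κ0 : ℝ) (hκ0 : 0 ≤ κ0) (hκ : ∀ j ∈ J, κ0 ≤ ∑ w ∈ V j, (2 * (T j * r w)) ^ d)
    (hU : 1 ≤ ∑ j ∈ J, (δ j / T j) ^ d) :
    κ0 ^ 2 ≤ 11 * 3 ^ d * volume.real B *
      volume.real (⋃ j ∈ J, ⋃ w ∈ V j, Metric.ball (x w) (δ (τ w) * r w)) := by
  classical
  set H : W → Set (Fin d → ℝ) := fun w => Metric.ball (x w) (δ (τ w) * r w) with hH
  have hHpos : ∀ w, 0 < δ (τ w) * r w := fun w => mul_pos (hδ0 _) (hr w)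
  have hvolH : ∀ w, volume.real (H w) = (2 * (δ (τ w) * r w)) ^ d := fun w =>
    vol_ball (x w) (hHpos w)
  set c : W → ℕ → ℝ := fun w j => (δ j / δ (τ w)) ^ d with hc
  have hc0 : ∀ w j, 0 ≤ c w j := fun w j => by
    have := hδ0 j
    have := hδ0 (τ w)
    simp only [hc]
    positivity
  have hδmono : ∀ s t, s ≤ t → δ t ≤ δ s := by
    intro s t hst
    refine (hδ s t hst).trans ?_
    have h1 : (1 / 2 : ℝ) ^ (t - s) ≤ 1 := pow_le_one₀ (by norm_num) (by norm_num)
    have := (hδ0 s).le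
    nlinarith
  have hc1 : ∀ w j, τ w ≤ j → c w j ≤ 1 := by
    intro w j hj
    apply pow_le_one₀
    · have := hδ0 j
      have := hδ0 (τ w)
      positivity
    · rw [div_le_one (hδ0 _)]
      exact hδmono _ _ hj
  set h : W → ℕ → ℝ := fun w j => (2 * (δ j * r w)) ^ d with hh
  have hh0 : ∀ w j, 0 ≤ h w j := fun w j => by
    have := hδ0 j
    have := hr w
    simp only [hh]
    positivity
  have hch : ∀ w j, c w j * volume.real (H w) = h w j := by
    intro w j
    rw [hvolH]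
    simp only [hc, hh]
    rw [← mul_pow]
    congr 1
    have := (hδ0 (τ w)).ne'
    field_simp
  set u : ℕ → ℝ := fun j => (δ j / T j) ^ d with hu
  have hu0 : ∀ j, 0 ≤ u j := fun j => by
    have := hδ0 j
    have := hT0 j
    simp only [hu]
    positivity
  set U : ℝ := ∑ j ∈ J, u j with hUdef
  set β : ℝ := volume.real B with hβ
  have hβ0 : 0 ≤ β := measureReal_nonneg
  set D : ℕ → ℝ := fun j => ∑ w ∈ V j, (2 * (T j * r w)) ^ d with hD
  have hDβ : ∀ j ∈ J, D j ≤ β := by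
    intro j hj
    have e1 : D j = ∑ w ∈ V j, volume.real (Metric.ball (x w) (T j * r w)) :=
      Finset.sum_congr rfl fun w _ => (vol_ball (x w) (mul_pos (hT0 j) (hr w))).symm
    have e2 : volume.real (⋃ w ∈ V j, Metric.ball (x w) (T j * r w))
        = ∑ w ∈ V j, volume.real (Metric.ball (x w) (T j * r w)) := by
      apply measureReal_biUnion_finset (h3 j hj)
      intro i _
      exact Metric.isOpen_ball.measurableSet
    rw [e1, ← e2]
    exact measureReal_mono (Set.iUnion₂_subset fun w hw => hsub j hj w hw) hB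
  set Gj : ℕ → ℝ := fun j => ∑ w ∈ V j, h w j with hGj
  have hGD : ∀ j, Gj j = u j * D j := by
    intro j
    simp only [hGj, hD, hu, hh, Finset.mul_sum]
    refine Finset.sum_congr rfl fun w _ => ?_
    rw [← mul_pow]
    congr 1
    have := (hT0 j).ne'
    field_simp
  have hGj0 : ∀ j, 0 ≤ Gj j := fun j => Finset.sum_nonneg fun w _ => hh0 w j
  set G : ℝ := ∑ j ∈ J, Gj j with hG
  have hG0 : 0 ≤ G := Finset.sum_nonneg fun j _ => hGj0 j
  have hGle : G ≤ U * β := by
    rw [hG, hUdef, Finset.sum_mul]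
    refine Finset.sum_le_sum fun j hj => ?_
    rw [hGD]
    exact mul_le_mul_of_nonneg_left (hDβ j hj) (hu0 j)
  have hGge : κ0 * U ≤ G := by
    rw [hG, hUdef, Finset.mul_sum]
    refine Finset.sum_le_sum fun j hj => ?_
    rw [hGD, mul_comm]
    exact mul_le_mul_of_nonneg_left (hκ j hj) (hu0 j)
  -- the cross sums
  set X : ℕ → ℕ → ℝ := fun s t => ∑ v ∈ V s, ∑ w ∈ V t, c v s * c w t *
    volume.real (H v ∩ H w) with hX
  have hXsymm : ∀ s t, X s t = X t s := by
    intro s t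
    simp only [hX]
    rw [Finset.sum_comm]
    refine Finset.sum_congr rfl fun w _ => Finset.sum_congr rfl fun v _ => ?_
    rw [Set.inter_comm, mul_comm (c v s)]
  set Z3 : ℕ → ℕ → ℝ := fun s t => ∑ v ∈ V s, (2 * (δ t * r v)) ^ d with hZ3
  set Z4 : ℕ → ℕ → ℝ := fun s t => ∑ w ∈ (V t).filter (fun w => τ w ≤ s),
    (δ s / δ (τ w)) ^ d * (2 * (δ t * r w)) ^ d with hZ4
  set Y : ℕ → ℕ → ℝ := fun s t => 3 ^ d * (u t * Gj s + u s * Gj t + Z3 s t + Z4 s t) with hY
  have hXY : ∀ s ∈ J, ∀ t ∈ J, X s t ≤ Y s t := by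
    intro s hs t ht
    exact cross_bound x r τ δ T hr hδ0 hT0 hτr hδ s t (V s) (V t) (h1 s hs) (h2 s hs)
      (h2 t ht) (h3 s hs) (h3 t ht)
  have hXdiag : ∀ s ∈ J, X s s ≤ Gj s := by
    intro s hs
    refine Finset.sum_le_sum fun v hv => ?_
    rw [Finset.sum_eq_single v]
    · rw [Set.inter_self, mul_assoc, hch]
      exact mul_le_of_le_one_left (hh0 _ _) (hc1 v s (h1 s hs v hv))
    · intro w hw hwv
      have hdis : Disjoint (H v) (H w) := by
        refine (h3 s hs hv hw hwv.symm).mono ?_ ?_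
        · exact Metric.ball_subset_ball (mul_le_mul_of_nonneg_right (h2 s hs v hv) (hr v).le)
        · exact Metric.ball_subset_ball (mul_le_mul_of_nonneg_right (h2 s hs w hw) (hr w).le)
      rw [Set.disjoint_iff_inter_eq_empty.mp hdis, measureReal_empty, mul_zero]
    · intro h
      exact absurd hv h
  have hsum : ∑ s ∈ J, ∑ t ∈ J, X s t ≤ G + 2 * ∑ t ∈ J, ∑ s ∈ J.filter (fun s => s < t), Y s t := by
    have e1 : ∀ s ∈ J, ∀ t ∈ J, X s t ≤ (if s = t then Gj s else 0)
        + (if s < t then Y s t else 0) + (if t < s then Y t s else 0) := by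
      intro s hs t ht
      rcases lt_trichotomy s t with hst | hst | hst
      · rw [if_neg hst.ne, if_pos hst, if_neg hst.not_gt]
        have := hXY s hs t ht
        linarith
      · subst hst
        simp only [if_true, lt_irrefl, if_false]
        have := hXdiag s hs
        linarith
      · rw [if_neg hst.ne', if_neg hst.not_gt, if_pos hst, hXsymm]
        have := hXY t ht s hs
        linarith
    refine (Finset.sum_le_sum fun s hs => Finset.sum_le_sum fun t ht => e1 s hs t ht).trans ?_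
    simp only [Finset.sum_add_distrib]
    have f1 : ∑ s ∈ J, ∑ t ∈ J, (if s = t then Gj s else 0) = G := by
      refine Finset.sum_congr rfl fun s hs => ?_
      rw [Finset.sum_ite_eq, if_pos hs]
    have f2 : ∑ s ∈ J, ∑ t ∈ J, (if s < t then Y s t else 0)
        = ∑ t ∈ J, ∑ s ∈ J.filter (fun s => s < t), Y s t := by
      rw [Finset.sum_comm]
      refine Finset.sum_congr rfl fun t _ => ?_
      rw [Finset.sum_filter]
    have f3 : ∑ s ∈ J, ∑ t ∈ J, (if t < s then Y t s else 0)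
        = ∑ t ∈ J, ∑ s ∈ J.filter (fun s => s < t), Y s t := by
      refine Finset.sum_congr rfl fun t _ => ?_
      rw [Finset.sum_filter]
    rw [f1, f2, f3]
    apply le_of_eq
    ring
  -- bounds for the pieces
  have p1 : ∑ t ∈ J, ∑ s ∈ J.filter (fun s => s < t), u t * Gj s ≤ U * G := by
    rw [hUdef, Finset.sum_mul]
    refine Finset.sum_le_sum fun t _ => ?_
    rw [← Finset.mul_sum]
    apply mul_le_mul_of_nonneg_left _ (hu0 t)
    exact Finset.sum_le_sum_of_subset_of_nonneg (Finset.filter_subset _ _) fun s _ _ => hGj0 s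
  have p2 : ∑ t ∈ J, ∑ s ∈ J.filter (fun s => s < t), u s * Gj t ≤ U * G := by
    rw [hG, Finset.mul_sum]
    refine Finset.sum_le_sum fun t _ => ?_
    rw [← Finset.sum_mul]
    apply mul_le_mul_of_nonneg_right _ (hGj0 t)
    exact Finset.sum_le_sum_of_subset_of_nonneg (Finset.filter_subset _ _) fun s _ _ => hu0 s
  have hpow : ∀ a b : ℝ, ∀ k : ℕ, 0 < a → 0 < b → a ≤ (1 / 2 : ℝ) ^ k * b →
      (a / b) ^ d ≤ (1 / 2 : ℝ) ^ k := by
    intro a b k ha hb hab
    have h1 : a / b ≤ (1 / 2 : ℝ) ^ k := (div_le_iff₀ hb).mpr hab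
    have h2 : a / b ≤ 1 := h1.trans (pow_le_one₀ (by norm_num) (by norm_num))
    exact (pow_le_of_le_one (by positivity) h2 (by omega)).trans h1
  have p3 : ∑ t ∈ J, ∑ s ∈ J.filter (fun s => s < t), Z3 s t ≤ U * β := by
    rw [hUdef, Finset.sum_mul]
    refine Finset.sum_le_sum fun t _ => ?_
    have q1 : ∀ s ∈ J.filter (fun s => s < t), Z3 s t ≤ (u t * β) * (1 / 2 : ℝ) ^ (t - s) := by
      intro s hs
      obtain ⟨hsJ, hst⟩ := Finset.mem_filter.mp hs
      have e : Z3 s t = u t * (T t / T s) ^ d * D s := by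
        simp only [hZ3, hD, hu, Finset.mul_sum]
        refine Finset.sum_congr rfl fun w _ => ?_
        rw [← mul_pow, ← mul_pow]
        congr 1
        have := (hT0 s).ne'
        have := (hT0 t).ne'
        field_simp
      rw [e]
      have e2 : (T t / T s) ^ d ≤ (1 / 2 : ℝ) ^ (t - s) :=
        hpow _ _ _ (hT0 t) (hT0 s) (hT s t hst.le)
      have e3 := hDβ s hsJ
      have e4 : 0 ≤ D s := by
        apply Finset.sum_nonneg
        intro w _
        have := hT0 s
        have := hr w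
        positivity
      calc u t * (T t / T s) ^ d * D s ≤ u t * (1 / 2 : ℝ) ^ (t - s) * β := by
            apply mul_le_mul _ e3 e4 (by have := hu0 t; positivity)
            exact mul_le_mul_of_nonneg_left e2 (hu0 t)
        _ = u t * β * (1 / 2 : ℝ) ^ (t - s) := by ring
    refine (Finset.sum_le_sum q1).trans ?_
    rw [← Finset.mul_sum]
    apply mul_le_of_le_one_right (mul_nonneg (hu0 t) hβ0) (geo_le_one J t)
  have p4 : ∑ t ∈ J, ∑ s ∈ J.filter (fun s => s < t), Z4 s t ≤ 2 * G := by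
    rw [hG, Finset.mul_sum]
    refine Finset.sum_le_sum fun t _ => ?_
    have q0 : ∀ s, Z4 s t = ∑ w ∈ V t, if τ w ≤ s then (δ s / δ (τ w)) ^ d * h w t else 0 := by
      intro s
      simp only [hZ4]
      rw [Finset.sum_filter]
    simp only [q0]
    rw [Finset.sum_comm]
    simp only [hGj, Finset.mul_sum]
    refine Finset.sum_le_sum fun w _ => ?_
    have q1 : ∀ s ∈ J.filter (fun s => s < t), (if τ w ≤ s then (δ s / δ (τ w)) ^ d * h w t else 0)
        ≤ (if τ w ≤ s then (1 / 2 : ℝ) ^ (s - τ w) else 0) * h w t := by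
      intro s _
      split_ifs with hs
      · exact mul_le_mul_of_nonneg_right (hpow _ _ _ (hδ0 _) (hδ0 _) (hδ _ _ hs)) (hh0 _ _)
      · rw [zero_mul]
    refine (Finset.sum_le_sum q1).trans ?_
    rw [← Finset.sum_mul]
    apply mul_le_mul_of_nonneg_right _ (hh0 _ _)
    rw [← Finset.sum_filter]
    exact geo_le_two _ _
  have hY' : ∑ t ∈ J, ∑ s ∈ J.filter (fun s => s < t), Y s t
      ≤ 3 ^ d * (U * G + U * G + U * β + 2 * G) := by
    have e : ∑ t ∈ J, ∑ s ∈ J.filter (fun s => s < t), Y s t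
        = 3 ^ d * (∑ t ∈ J, ∑ s ∈ J.filter (fun s => s < t), u t * Gj s
          + ∑ t ∈ J, ∑ s ∈ J.filter (fun s => s < t), u s * Gj t
          + ∑ t ∈ J, ∑ s ∈ J.filter (fun s => s < t), Z3 s t
          + ∑ t ∈ J, ∑ s ∈ J.filter (fun s => s < t), Z4 s t) := by
      simp only [hY]
      rw [← Finset.sum_add_distrib, ← Finset.sum_add_distrib, ← Finset.sum_add_distrib,
        Finset.mul_sum]
      refine Finset.sum_congr rfl fun t _ => ?_
      rw [← Finset.sum_add_distrib, ← Finset.sum_add_distrib, ← Finset.sum_add_distrib,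
        Finset.mul_sum]
    rw [e]
    apply mul_le_mul_of_nonneg_left _ (by positivity)
    linarith
  set F : ℝ := ∑ s ∈ J, ∑ t ∈ J, X s t with hF
  have h3d : (1 : ℝ) ≤ 3 ^ d := one_le_pow₀ (by norm_num)
  have hFle : F ≤ 11 * 3 ^ d * (U ^ 2 * β) := by
    have hU0 : 0 ≤ U := by linarith
    have a1 : U * G ≤ U ^ 2 * β := by
      have := mul_le_mul_of_nonneg_left hGle hU0
      calc U * G ≤ U * (U * β) := this
        _ = U ^ 2 * β := by ring
    have a2 : U * β ≤ U ^ 2 * β := by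
      apply mul_le_mul_of_nonneg_right _ hβ0
      nlinarith
    have a3 : G ≤ U ^ 2 * β := hGle.trans a2
    have a4 : 0 ≤ U ^ 2 * β := by positivity
    have a5 : U * G + U * G + U * β + 2 * G ≤ 5 * (U ^ 2 * β) := by linarith
    have a6 : 3 ^ d * (U * G + U * G + U * β + 2 * G) ≤ 3 ^ d * (5 * (U ^ 2 * β)) :=
      mul_le_mul_of_nonneg_left a5 (by positivity)
    have a7 : G ≤ 3 ^ d * (U ^ 2 * β) := a3.trans (by nlinarith)
    calc F ≤ G + 2 * ∑ t ∈ J, ∑ s ∈ J.filter (fun s => s < t), Y s t := hsum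
      _ ≤ 3 ^ d * (U ^ 2 * β) + 2 * (3 ^ d * (5 * (U ^ 2 * β))) := by linarith
      _ = 11 * 3 ^ d * (U ^ 2 * β) := by ring
  -- Cauchy-Schwarz
  have hCS := cauchy_schwarz_sets (volume : Measure (Fin d → ℝ)) (J.sigma V)
    (fun p : (_ : ℕ) × W => H p.2) (fun p => Metric.isOpen_ball.measurableSet)
    (fun p => measure_ball_lt_top.ne) (fun p => c p.2 p.1)
  have g1 : ∑ p ∈ J.sigma V, c p.2 p.1 * volume.real (H p.2) = G := by
    rw [Finset.sum_sigma]
    refine Finset.sum_congr rfl fun j _ => Finset.sum_congr rfl fun w _ => ?_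
    exact hch w j
  have g2 : ∑ p ∈ J.sigma V, ∑ p' ∈ J.sigma V, c p.2 p.1 * c p'.2 p'.1 *
      volume.real (H p.2 ∩ H p'.2) = F := by
    rw [Finset.sum_sigma]
    refine Finset.sum_congr rfl fun s _ => ?_
    simp only [Finset.sum_sigma]
    rw [Finset.sum_comm]
  have g3 : (⋃ p ∈ J.sigma V, H p.2) = ⋃ j ∈ J, ⋃ w ∈ V j, H w := by
    ext z
    simp only [Set.mem_iUnion, Finset.mem_sigma, exists_prop]
    constructor
    · rintro ⟨⟨j, w⟩, ⟨hj, hw⟩, hz⟩
      exact ⟨j, hj, w, hw, hz⟩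
    · rintro ⟨j, hj, w, hw, hz⟩
      exact ⟨⟨j, w⟩, ⟨hj, hw⟩, hz⟩
  simp only [g1, g2, g3] at hCS
  set S : ℝ := volume.real (⋃ j ∈ J, ⋃ w ∈ V j, H w) with hS
  have hS0 : 0 ≤ S := measureReal_nonneg
  have hUpos : 0 < U := by linarith
  have k1 : (κ0 * U) ^ 2 ≤ G ^ 2 := pow_le_pow_left₀ (by positivity) hGge 2
  have k2 : G ^ 2 ≤ S * (11 * 3 ^ d * (U ^ 2 * β)) :=
    hCS.trans (mul_le_mul_of_nonneg_left hFle hS0)
  have k3 : κ0 ^ 2 * U ^ 2 ≤ (11 * 3 ^ d * β * S) * U ^ 2 := by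
    calc κ0 ^ 2 * U ^ 2 = (κ0 * U) ^ 2 := by ring
      _ ≤ S * (11 * 3 ^ d * (U ^ 2 * β)) := k1.trans k2
      _ = (11 * 3 ^ d * β * S) * U ^ 2 := by ring
  exact le_of_mul_le_mul_right k3 (by positivity)

end

end Pool.Agent.Helper47.KG
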