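import Mathlib

set_option autoImplicit false

namespace Pool.Agent.Helper47.KG

/-- the index of the dyadic cell of length `2^-m` which contains the fractional part -/
noncomputable def cell (m : ℕ) (y : ℝ) : Fin (2 ^ m) :=
  ⟨⌊(2 : ℝ) ^ m * Int.fract y⌋₊, by
    have h1 : (0 : ℝ) ≤ (2 : ℝ) ^ m * Int.fract y := by
      have := Int.fract_nonneg y
      positivity
    rw [Nat.floor_lt h1]
    have h2 := Int.fract_lt_one y
    have h3 : (0 : ℝ) < (2 : ℝ) ^ m := by positivity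
    push_cast
    nlinarith⟩

theorem cell_lt {m : ℕ} {y z : ℝ} (h : cell m y = cell m z) :
    |Int.fract y - Int.fract z| < (1 / 2 : ℝ) ^ m := by
  have h' : ⌊(2 : ℝ) ^ m * Int.fract y⌋₊ = ⌊(2 : ℝ) ^ m * Int.fract z⌋₊ := by
    have := congrArg Fin.val h
    exact this
  have hp : (0 : ℝ) < (2 : ℝ) ^ m := by positivity
  have h1 : (0 : ℝ) ≤ (2 : ℝ) ^ m * Int.fract y := by
    have := Int.fract_nonneg y
    positivity
  have h2 : (0 : ℝ) ≤ (2 : ℝ) ^ m * Int.fract z := by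
    have := Int.fract_nonneg z
    positivity
  have a1 := Nat.floor_le h1
  have a2 := Nat.lt_floor_add_one ((2 : ℝ) ^ m * Int.fract y)
  have b1 := Nat.floor_le h2
  have b2 := Nat.lt_floor_add_one ((2 : ℝ) ^ m * Int.fract z)
  rw [h'] at a1 a2
  have key : |(2 : ℝ) ^ m * Int.fract y - (2 : ℝ) ^ m * Int.fract z| < 1 := by
    rw [abs_lt]
    constructor <;> linarith
  rw [← mul_sub, abs_mul, abs_of_pos hp] at key
  rw [one_div, inv_pow, ← one_div, lt_div_iff₀' hp]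
  exact key

theorem dirichlet {d : ℕ} {κ : Type} [Fintype κ] (M : (Fin d → ℝ) →ₗ[ℝ] (κ → ℝ)) (c : κ → ℝ)
    (m k Q : ℕ) (hQ : 2 ^ (m * d + k * Fintype.card κ) ≤ Q) (x : Fin d → ℝ) :
    ∃ (q : ℕ) (a : Fin d → ℤ) (b : κ → ℤ), 1 ≤ q ∧ q ≤ Q ∧
      (∀ i, |(q : ℝ) * x i - a i| < (1 / 2 : ℝ) ^ m) ∧
      (∀ i, |(b i : ℝ) - M (fun i => (a i : ℝ)) i - q * c i| < (1 / 2 : ℝ) ^ k) := by
  classical
  set A : ℕ → Fin d → ℤ := fun q i => ⌊(q : ℝ) * x i⌋ with hA
  set t : ℕ → κ → ℝ := fun q i => M (fun i => (A q i : ℝ)) i + q * c i with ht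
  let f : Fin (Q + 1) → (Fin d → Fin (2 ^ m)) × (κ → Fin (2 ^ k)) := fun q =>
    (fun i => cell m ((q : ℕ) * x i), fun i => cell k (t q i))
  have hcard : Fintype.card ((Fin d → Fin (2 ^ m)) × (κ → Fin (2 ^ k))) <
      Fintype.card (Fin (Q + 1)) := by
    simp only [Fintype.card_prod, Fintype.card_fun, Fintype.card_fin]
    have : (2 ^ m) ^ d * (2 ^ k) ^ Fintype.card κ = 2 ^ (m * d + k * Fintype.card κ) := by
      rw [pow_add, pow_mul, pow_mul]
    omega
  obtain ⟨q1, q2, hne, hf⟩ := Fintype.exists_ne_map_eq_of_card_lt f hcard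
  wlog hlt : q1 < q2 generalizing q1 q2
  · exact this q2 q1 hne.symm hf.symm (lt_of_le_of_ne (not_lt.mp hlt) hne.symm)
  have hlt' : (q1 : ℕ) < (q2 : ℕ) := hlt
  have hf1 : ∀ i, cell m ((q1 : ℕ) * x i) = cell m ((q2 : ℕ) * x i) := fun i =>
    congrFun (congrArg Prod.fst hf) i
  have hf2 : ∀ i, cell k (t q1 i) = cell k (t q2 i) := fun i =>
    congrFun (congrArg Prod.snd hf) i
  refine ⟨q2 - q1, fun i => A q2 i - A q1 i, fun i => ⌊t q2 i⌋ - ⌊t q1 i⌋, by omega, by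
    have := q2.2; omega, ?_, ?_⟩
  · intro i
    have h := cell_lt (hf1 i)
    rw [abs_sub_comm] at h
    convert h using 2
    rw [Nat.cast_sub hlt'.le]
    simp only [hA, Int.fract]
    push_cast
    ring
  · intro i
    have h := cell_lt (hf2 i)
    convert h using 2
    have hM : M (fun i => (((A q2 i - A q1 i : ℤ)) : ℝ)) i
        = M (fun i => (A q2 i : ℝ)) i - M (fun i => (A q1 i : ℝ)) i := by
      have : (fun i => (((A q2 i - A q1 i : ℤ)) : ℝ))
          = (fun i => (A q2 i : ℝ)) - (fun i => (A q1 i : ℝ)) := by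
        funext i
        simp
      rw [this, map_sub]
      rfl
    rw [hM, Nat.cast_sub hlt'.le]
    simp only [ht, Int.fract]
    push_cast
    ring

end Pool.Agent.Helper47.KG
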