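import Pool.Agent.Helper47.KG.Local
import Pool.Agent.Helper47.KG.Dirichlet

set_option autoImplicit false

open MeasureTheory Filter Topology

namespace Pool.Agent.Helper47.KG

/-- away from the rationals, small denominators are absent -/
theorem no_small_denominators (t : ℝ) (ht : ∀ ρ : ℚ, t ≠ (ρ : ℝ)) (N : ℕ) :
    ∃ R : ℝ, 0 < R ∧ ∀ q : ℕ, q < N → ∀ a : ℤ, R ≤ |(a : ℝ) / ((q : ℝ) + 1) - t| := by
  induction N with
  | zero => exact ⟨1, one_pos, fun q hq => absurd hq (Nat.not_lt_zero q)⟩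
  | succ N ih =>
    obtain ⟨R, hR, h⟩ := ih
    have hN : (0 : ℝ) < (N : ℝ) + 1 := by positivity
    set η : ℝ := |((N : ℝ) + 1) * t - round (((N : ℝ) + 1) * t)| with hη
    have hηpos : 0 < η := by
      rw [hη, abs_pos, sub_ne_zero]
      intro h0
      apply ht ((round (((N : ℝ) + 1) * t) : ℚ) / ((N : ℚ) + 1))
      push_cast
      rw [← h0]
      field_simp
    refine ⟨min R (η / ((N : ℝ) + 1)), lt_min hR (by positivity), fun q hq a => ?_⟩
    rcases Nat.lt_succ_iff_lt_or_eq.mp hq with hq' | rfl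
    · exact (min_le_left _ _).trans (h q hq' a)
    · refine (min_le_right _ _).trans ?_
      rw [div_le_iff₀ hN]
      have h1 := round_le (((q : ℝ) + 1) * t) a
      have h2 : |(a : ℝ) / ((q : ℝ) + 1) - t| * ((q : ℝ) + 1) = |((q : ℝ) + 1) * t - a| := by
        rw [← abs_of_pos hN, ← abs_mul, abs_of_pos hN, abs_sub_comm]
        congr 1
        field_simp
      rw [h2]
      exact h1

/-- density step -/
theorem mem_of_local {d : ℕ} (E : Set (Fin d → ℝ)) (C : ℝ) (hC : 0 < C)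
    (z : Fin d → ℝ)
    (hz : Tendsto (fun r => volume (E ∩ Metric.closedBall z r) / volume (Metric.closedBall z r))
      (𝓝[>] 0) (𝓝 (E.indicator 1 z)))
    (R0 : ℝ) (hR0 : 0 < R0)
    (hloc : ∀ R, 0 < R → R ≤ R0 → R ^ d ≤ C * volume.real (E ∩ Metric.ball z R)) : z ∈ E := by
  by_contra hzE
  rw [Set.indicator_of_notMem hzE] at hz
  have hev : ∀ᶠ R in 𝓝[>] (0 : ℝ), ENNReal.ofReal (1 / (C * 2 ^ d)) ≤
      volume (E ∩ Metric.closedBall z R) / volume (Metric.closedBall z R) := by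
    filter_upwards [Ioc_mem_nhdsGT hR0] with R hR
    have hRpos : 0 < R := hR.1
    have h1 := hloc R hRpos hR.2
    have h2 : volume (Metric.closedBall z R) = ENNReal.ofReal ((2 * R) ^ d) := by
      rw [Real.volume_pi_closedBall z hRpos.le, Fintype.card_fin]
    rw [h2, ENNReal.le_div_iff_mul_le (Or.inl (by
      rw [ENNReal.ofReal_ne_zero_iff]
      positivity)) (Or.inl ENNReal.ofReal_ne_top), ← ENNReal.ofReal_mul (by positivity)]
    have h3 : 1 / (C * 2 ^ d) * (2 * R) ^ d = R ^ d / C := by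
      rw [mul_pow]
      field_simp
    have hfin : volume (E ∩ Metric.ball z R) ≠ ⊤ :=
      ne_top_of_le_ne_top measure_ball_lt_top.ne (measure_mono Set.inter_subset_right)
    have h4 : R ^ d / C ≤ volume.real (E ∩ Metric.ball z R) := by
      rw [div_le_iff₀ hC]
      linarith
    rw [h3]
    refine (ENNReal.ofReal_le_ofReal h4).trans ?_
    rw [measureReal_def, ENNReal.ofReal_toReal hfin]
    exact measure_mono (Set.inter_subset_inter_right _ Metric.ball_subset_closedBall)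
  have hle := ge_of_tendsto hz hev
  rw [nonpos_iff_eq_zero, ENNReal.ofReal_eq_zero] at hle
  have : 0 < 1 / (C * 2 ^ d) := by positivity
  linarith

/-- almost every point has an irrational coordinate -/
theorem ae_irrational {d : ℕ} (i0 : Fin d) :
    ∀ᵐ z ∂(volume : Measure (Fin d → ℝ)), ∀ ρ : ℚ, z i0 ≠ (ρ : ℝ) := by
  rw [ae_all_iff]
  intro ρ
  have h : (volume : Measure (Fin d → ℝ)) {z | z i0 = (ρ : ℝ)} = 0 := by
    rw [volume_pi]
    exact Measure.pi_hyperplane (fun _ : Fin d => (volume : Measure ℝ)) i0 (ρ : ℝ)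
  rw [ae_iff]
  simpa using h

theorem graph_core (d : ℕ) (hd : 1 ≤ d) (κ : Type) [Fintype κ]
    (M : (Fin d → ℝ) →ₗ[ℝ] (κ → ℝ)) (c : κ → ℝ) (ψ : ℕ → ℝ) (hψ : Antitone ψ)
    (K : ℝ) (hK : ‖LinearMap.toContinuousLinearMap M‖ + 1 ≤ K)
    (k m Q : ℕ → ℕ) (hk : StrictMono k) (hm : StrictMono m)
    (hQ : ∀ j, 2 ^ (m j * d + k j * Fintype.card κ) ≤ Q j)
    (hψQ : ∀ j, K * (1 / 2 : ℝ) ^ (k j) < ψ (Q j))
    (hdiv : ¬ Summable (fun j : ℕ => ((2 : ℝ) ^ (m j) / 2 ^ (k j)) ^ d)) :
    ∀ᵐ x ∂(volume : Measure (Fin d → ℝ)), ∃ᶠ q : ℕ in atTop,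
        (∀ i : Fin d, |(q : ℝ) * x i - (round ((q : ℝ) * x i) : ℝ)| < ψ q) ∧
        (∀ i : κ, |(q : ℝ) * (M x i + c i) - (round ((q : ℝ) * (M x i + c i)) : ℝ)| < ψ q) := by
  classical
  have hQj : ∀ j, j < Q j := by
    intro j
    have h1 : j < 2 ^ j := Nat.lt_two_pow_self
    have h2 : 2 ^ j ≤ 2 ^ (m j * d + k j * Fintype.card κ) := by
      apply Nat.pow_le_pow_right (by norm_num)
      have := hm.id_le j
      simp only [id] at this
      have : m j ≤ m j * d := Nat.le_mul_of_pos_right _ hd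
      omega
    exact h1.trans_le (h2.trans (hQ j))
  -- the index type of integer vectors
  let W : Type := ℕ × (Fin d → ℤ) × (κ → ℤ)
  have hex : ∀ w : W, ∃ j, w.1 + 1 ≤ Q j := fun w => ⟨w.1, hQj w.1⟩
  let x : W → Fin d → ℝ := fun w i => (w.2.1 i : ℝ) / ((w.1 : ℝ) + 1)
  let r : W → ℝ := fun w => 1 / ((w.1 : ℝ) + 1)
  let τ : W → ℕ := fun w => Nat.find (hex w)
  let δ : ℕ → ℝ := fun j => (1 / 2 : ℝ) ^ (k j)
  let T : ℕ → ℝ := fun j => (1 / 2 : ℝ) ^ (m j)
  let L : ℕ → Set W := fun j => {w | w.1 + 1 ≤ Q j ∧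
    ∀ i, |(w.2.2 i : ℝ) - M (fun i => (w.2.1 i : ℝ)) i - ((w.1 : ℝ) + 1) * c i| < δ j}
  have hr : ∀ w, 0 < r w := fun w => by
    simp only [r]
    positivity
  have hr1 : ∀ w, r w ≤ 1 := fun w => by
    simp only [r]
    rw [div_le_one (by positivity)]
    have : (0 : ℝ) ≤ (w.1 : ℝ) := Nat.cast_nonneg _
    linarith
  have hδ0 : ∀ j, 0 < δ j := fun j => by
    simp only [δ]
    positivity
  have hT0 : ∀ j, 0 < T j := fun j => by
    simp only [T]
    positivity
  have hgen : ∀ f : ℕ → ℕ, StrictMono f → ∀ s t, s ≤ t →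
      (1 / 2 : ℝ) ^ (f t) ≤ (1 / 2 : ℝ) ^ (t - s) * (1 / 2 : ℝ) ^ (f s) := by
    intro f hf s t hst
    rw [← pow_add]
    apply pow_le_pow_of_le_one (by norm_num) (by norm_num)
    have := hf.add_le_nat s (t - s)
    have h2 : s + (t - s) = t := by omega
    have h3 : t - s + f s ≤ f t := by
      have h4 := hf.add_le_nat (t - s) s
      rw [show t - s + s = t by omega] at h4
      omega
    exact h3
  have hδ : ∀ s t, s ≤ t → δ t ≤ (1 / 2 : ℝ) ^ (t - s) * δ s := hgen k hk
  have hT : ∀ s t, s ≤ t → T t ≤ (1 / 2 : ℝ) ^ (t - s) * T s := hgen m hm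
  have hδmono : ∀ s t, s ≤ t → δ t ≤ δ s := by
    intro s t hst
    exact pow_le_pow_of_le_one (by norm_num) (by norm_num) (hk.monotone hst)
  have hdiv' : ¬ Summable (fun j => (δ j / T j) ^ d) := by
    have : (fun j => (δ j / T j) ^ d) = fun j : ℕ => ((2 : ℝ) ^ (m j) / 2 ^ (k j)) ^ d := by
      funext j
      simp only [δ, T, one_div, inv_pow]
      congr 1
      field_simp
    rwa [this]
  have hτspec : ∀ w : W, w.1 + 1 ≤ Q (τ w) := fun w => Nat.find_spec (hex w)
  have hτle : ∀ (w : W) j, w.1 + 1 ≤ Q j → τ w ≤ j := fun w j h => Nat.find_min' (hex w) h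
  have hτr : ∀ v w, r v < r w → τ w ≤ τ v := by
    intro v w h
    apply hτle
    have h1 : (w.1 : ℝ) + 1 < (v.1 : ℝ) + 1 := by
      simp only [r] at h
      exact (one_div_lt_one_div (by positivity) (by positivity)).mp h
    have h2 : w.1 < v.1 := by
      have : (w.1 : ℝ) < (v.1 : ℝ) := by linarith
      exact_mod_cast this
    have := hτspec v
    omega
  have hL1 : ∀ j, ∀ w ∈ L j, τ w ≤ j := fun j w hw => hτle w j hw.1
  have hdir : ∀ j, ∀ y : Fin d → ℝ, ∃ w ∈ L j, y ∈ Metric.ball (x w) (T j * r w) := by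
    intro j y
    obtain ⟨q, a, b, hq1, hq2, ha, hb⟩ := dirichlet M c (m j) (k j) (Q j) (hQ j) y
    obtain ⟨q', rfl⟩ : ∃ q', q = q' + 1 := ⟨q - 1, by omega⟩
    refine ⟨(q', a, b), ⟨hq2, fun i => ?_⟩, ?_⟩
    · have := hb i
      push_cast at this
      exact this
    · rw [Metric.mem_ball, dist_pi_lt_iff (mul_pos (hT0 j) (hr _))]
      intro i
      have h1 := ha i
      push_cast at h1
      have hq' : (0 : ℝ) < (q' : ℝ) + 1 := by positivity
      rw [Real.dist_eq]
      simp only [x, r, T]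
      rw [mul_one_div, lt_div_iff₀ hq']
      calc |y i - (a i : ℝ) / ((q' : ℝ) + 1)| * ((q' : ℝ) + 1)
          = |((q' : ℝ) + 1) * y i - a i| := by
            rw [← abs_of_pos hq', ← abs_mul, abs_of_pos hq']
            congr 1
            field_simp
        _ < _ := h1
  -- the hit sets
  let A : ℕ → (Fin d → ℤ) → (κ → ℤ) → Set (Fin d → ℝ) := fun q a b =>
    {y | ∀ i, |(q : ℝ) * y i - a i| < ψ q} ∩ {y | ∀ i, |(q : ℝ) * (M y i + c i) - b i| < ψ q}
  let E : ℕ → Set (Fin d → ℝ) := fun q0 => ⋃ (q : ℕ), ⋃ (_ : q0 ≤ q), ⋃ a, ⋃ b, A q a b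
  have hMcont : Continuous M := M.continuous_of_finiteDimensional
  have hAopen : ∀ q a b, IsOpen (A q a b) := by
    intro q a b
    apply IsOpen.inter
    · rw [Set.setOf_forall]
      refine isOpen_iInter_of_finite fun i => isOpen_lt ?_ continuous_const
      fun_prop
    · rw [Set.setOf_forall]
      refine isOpen_iInter_of_finite fun i => isOpen_lt ?_ continuous_const
      have : Continuous fun y => M y i := (continuous_apply i).comp hMcont
      fun_prop
  have hEopen : ∀ q0, IsOpen (E q0) := fun q0 =>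
    isOpen_iUnion fun q => isOpen_iUnion fun _ => isOpen_iUnion fun a => isOpen_iUnion fun b =>
      hAopen q a b
  -- hits
  have hhit : ∀ j, ∀ w ∈ L j, Metric.ball (x w) (δ (τ w) * r w) ⊆ A (w.1 + 1) w.2.1 w.2.2 := by
    intro j w hw y hy
    have hq' : (0 : ℝ) < (w.1 : ℝ) + 1 := by positivity
    have hKpos : 1 ≤ K := by
      have := norm_nonneg (LinearMap.toContinuousLinearMap M)
      linarith
    have hψw : K * δ (τ w) < ψ (w.1 + 1) := (hψQ (τ w)).trans_le (hψ (hτspec w))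
    have hδψ : δ (τ w) < ψ (w.1 + 1) := by
      have := hδ0 (τ w)
      nlinarith
    set u : Fin d → ℝ := fun i => ((w.1 : ℝ) + 1) * y i - w.2.1 i with hu
    have hu1 : u = ((w.1 : ℝ) + 1) • (y - x w) := by
      funext i
      simp only [hu, x, Pi.smul_apply, Pi.sub_apply, smul_eq_mul]
      field_simp
    have hu2 : ‖u‖ < δ (τ w) := by
      rw [hu1, norm_smul, Real.norm_eq_abs, abs_of_pos hq', ← dist_eq_norm]
      have h1 := Metric.mem_ball.mp hy
      simp only [r] at h1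
      rw [mul_one_div, lt_div_iff₀ hq'] at h1
      linarith
    have hcast : (((w.1 + 1 : ℕ)) : ℝ) = (w.1 : ℝ) + 1 := by push_cast; ring
    refine ⟨fun i => ?_, fun i => ?_⟩
    · rw [hcast]
      have h1 : |u i| ≤ ‖u‖ := norm_le_pi_norm u i
      exact (h1.trans_lt hu2).trans hδψ
    · rw [hcast]
      have h1 : ((w.1 : ℝ) + 1) * (M y i + c i) - w.2.2 i
          = M u i - ((w.2.2 i : ℝ) - M (fun i => (w.2.1 i : ℝ)) i - ((w.1 : ℝ) + 1) * c i) := by
        have h2 : u = ((w.1 : ℝ) + 1) • y - (fun i => (w.2.1 i : ℝ)) := by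
          funext i
          simp only [hu, Pi.smul_apply, Pi.sub_apply, smul_eq_mul]
        rw [h2, map_sub, map_smul]
        simp only [Pi.smul_apply, Pi.sub_apply, smul_eq_mul]
        ring
      rw [h1]
      have h3 : |M u i| ≤ ‖LinearMap.toContinuousLinearMap M‖ * ‖u‖ := by
        have h4 : ‖M u‖ ≤ ‖LinearMap.toContinuousLinearMap M‖ * ‖u‖ :=
          (LinearMap.toContinuousLinearMap M).le_opNorm u
        exact (norm_le_pi_norm (M u) i).trans h4
      have h5 : ‖LinearMap.toContinuousLinearMap M‖ * ‖u‖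
          ≤ ‖LinearMap.toContinuousLinearMap M‖ * δ (τ w) :=
        mul_le_mul_of_nonneg_left hu2.le (norm_nonneg _)
      have h6 := hw.2 i
      have h7 := hδmono _ _ (hL1 j w hw)
      have h8 := abs_sub (M u i)
        ((w.2.2 i : ℝ) - M (fun i => (w.2.1 i : ℝ)) i - ((w.1 : ℝ) + 1) * c i)
      have h9 := hδ0 (τ w)
      nlinarith
  -- every hit set has full measure
  have hfull : ∀ q0, ∀ᵐ z ∂(volume : Measure (Fin d → ℝ)), z ∈ E q0 := by
    intro q0
    let i0 : Fin d := ⟨0, hd⟩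
    filter_upwards [ae_irrational i0, Besicovitch.ae_tendsto_measure_inter_div_of_measurableSet
      (volume : Measure (Fin d → ℝ)) (hEopen q0).measurableSet] with z hz1 hz2
    obtain ⟨R0, hR0, hsmall⟩ := no_small_denominators (z i0) hz1 q0
    refine mem_of_local (E q0) (44 * 150 ^ d) (by positivity) z hz2 R0 hR0 fun R hR hRR => ?_
    refine local_bound x r τ δ T hd hr hr1 hδ0 hT0 hτr hδ hT hdiv' L hL1 hdir (E q0) z hR ?_
    intro j w hw hwR
    refine (hhit j w hw).trans ?_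
    have hq : q0 ≤ w.1 + 1 := by
      by_contra hlt
      have h1 := hsmall w.1 (by omega) (w.2.1 i0)
      have h2 : dist (x w i0) (z i0) < R :=
        (dist_le_pi_dist (x w) z i0).trans_lt (Metric.mem_ball.mp hwR)
      rw [Real.dist_eq] at h2
      simp only [x] at h2
      linarith
    intro y hy
    simp only [E, Set.mem_iUnion]
    exact ⟨w.1 + 1, hq, w.2.1, w.2.2, hy⟩
  filter_upwards [ae_all_iff.mpr hfull] with z hz
  rw [frequently_atTop]
  intro q0
  have h1 := hz q0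
  simp only [E, Set.mem_iUnion] at h1
  obtain ⟨q, hq, a, b, h2, h3⟩ := h1
  exact ⟨q, hq, fun i => (round_le _ _).trans_lt (h2 i), fun i => (round_le _ _).trans_lt (h3 i)⟩

end Pool.Agent.Helper47.KG
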