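import Pool.Agent.Helper47.KG.Core

set_option autoImplicit false

open MeasureTheory

namespace Pool.Agent.Helper47.KG

variable {d : ℕ}

/-- finite Vitali covering at one level -/
theorem vitali_level {W : Type*} (x : W → Fin d → ℝ) (ρ : W → ℝ) (L : Set W)
    (z : Fin d → ℝ) {R : ℝ} (hR : 0 < R) (hρ0 : ∀ w ∈ L, 0 < ρ w) (hρ : ∀ w ∈ L, ρ w ≤ R / 4)
    (hcov : ∀ y : Fin d → ℝ, ∃ w ∈ L, y ∈ Metric.ball (x w) (ρ w)) :
    ∃ V : Finset W, (∀ w ∈ V, w ∈ L) ∧
      (V : Set W).PairwiseDisjoint (fun w => Metric.ball (x w) (ρ w)) ∧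
      (∀ w ∈ V, Metric.ball (x w) (ρ w) ⊆ Metric.ball z R) ∧
      R ^ d ≤ 5 ^ d * ∑ w ∈ V, (2 * ρ w) ^ d := by
  classical
  obtain ⟨b', hb'L, hb'fin, hb'cov⟩ := (isCompact_closedBall z (R / 2)).elim_finite_subcover_image
    (b := L) (c := fun w => Metric.ball (x w) (ρ w)) (fun w _ => Metric.isOpen_ball) (by
      intro y _
      obtain ⟨w, hw, hy⟩ := hcov y
      exact Set.mem_iUnion₂.mpr ⟨w, hw, hy⟩)
  set b : Set W := {w ∈ b' | (Metric.ball (x w) (ρ w) ∩ Metric.closedBall z (R / 2)).Nonempty}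
    with hb
  have hbb' : b ⊆ b' := fun w hw => hw.1
  obtain ⟨u, hu, hdis, hcover⟩ := Vitali.exists_disjoint_subfamily_covering_enlargement_ball b x ρ
    (R / 4) (fun w hw => hρ w (hb'L hw.1)) 5 (by norm_num)
  have hufin : u.Finite := hb'fin.subset (hu.trans hbb')
  have huL : ∀ w ∈ u, w ∈ L := fun w hw => hb'L (hbb' (hu hw))
  refine ⟨hufin.toFinset, fun w hw => huL w (hufin.mem_toFinset.mp hw), ?_, ?_, ?_⟩
  · rw [hufin.coe_toFinset]
    exact hdis
  · intro w hw
    have hw' : w ∈ u := hufin.mem_toFinset.mp hw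
    obtain ⟨p, hp1, hp2⟩ := (hu hw').2
    intro y hy
    rw [Metric.mem_ball] at hy hp1 ⊢
    rw [Metric.mem_closedBall] at hp2
    have e1 := dist_triangle y (x w) z
    have e2 := dist_triangle (x w) p z
    rw [dist_comm (x w) p] at e2
    have := hρ w (huL w hw')
    linarith
  · have hsub : Metric.closedBall z (R / 2) ⊆
        ⋃ w ∈ hufin.toFinset, Metric.ball (x w) (5 * ρ w) := by
      intro y hy
      obtain ⟨w, hw, hyw⟩ := Set.mem_iUnion₂.mp (hb'cov hy)
      obtain ⟨w', hw', hsub⟩ := hcover w ⟨hw, ⟨y, hyw, hy⟩⟩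
      exact Set.mem_iUnion₂.mpr ⟨w', hufin.mem_toFinset.mpr hw', hsub hyw⟩
    have h1 : volume.real (Metric.closedBall z (R / 2)) = R ^ d := by
      rw [measureReal_def, Real.volume_pi_closedBall z (by positivity),
        ENNReal.toReal_ofReal (by positivity), Fintype.card_fin]
      congr 1
      ring
    rw [← h1]
    have hfin : volume (⋃ w ∈ hufin.toFinset, Metric.ball (x w) (5 * ρ w)) ≠ ⊤ := by
      refine ne_top_of_le_ne_top ?_ (measure_biUnion_finset_le _ _)
      exact ENNReal.sum_ne_top.mpr fun i _ => measure_ball_lt_top.ne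
    refine (measureReal_mono hsub hfin).trans ((measureReal_biUnion_finset_le _ _).trans ?_)
    rw [Finset.mul_sum]
    refine Finset.sum_le_sum fun w hw => ?_
    have hw' : w ∈ u := hufin.mem_toFinset.mp hw
    have := hρ0 w (huL w hw')
    rw [vol_ball (x w) (by positivity), ← mul_pow]
    apply le_of_eq
    congr 1
    ring

/-- the local estimate: the hit set has a definite proportion in every small ball -/
theorem local_bound {W : Type*} (x : W → Fin d → ℝ) (r : W → ℝ) (τ : W → ℕ) (δ T : ℕ → ℝ)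
    (hd : 1 ≤ d) (hr : ∀ w, 0 < r w) (hr1 : ∀ w, r w ≤ 1)
    (hδ0 : ∀ j, 0 < δ j) (hT0 : ∀ j, 0 < T j)
    (hτr : ∀ v w, r v < r w → τ w ≤ τ v)
    (hδ : ∀ s t, s ≤ t → δ t ≤ (1 / 2 : ℝ) ^ (t - s) * δ s)
    (hT : ∀ s t, s ≤ t → T t ≤ (1 / 2 : ℝ) ^ (t - s) * T s)
    (hdiv : ¬ Summable (fun j => (δ j / T j) ^ d))
    (L : ℕ → Set W) (hL1 : ∀ j, ∀ w ∈ L j, τ w ≤ j)
    (hdir : ∀ j, ∀ y : Fin d → ℝ, ∃ w ∈ L j, y ∈ Metric.ball (x w) (T j * r w))
    (E : Set (Fin d → ℝ)) (z : Fin d → ℝ) {R : ℝ} (hR : 0 < R)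
    (hhit : ∀ j, ∀ w ∈ L j, x w ∈ Metric.ball z R →
      Metric.ball (x w) (δ (τ w) * r w) ⊆ E) :
    R ^ d ≤ 44 * 150 ^ d * volume.real (E ∩ Metric.ball z R) := by
  classical
  -- levels large enough
  have hTlim : Filter.Tendsto T Filter.atTop (nhds 0) := by
    have h1 : Filter.Tendsto (fun t : ℕ => (1 / 2 : ℝ) ^ t * T 0) Filter.atTop (nhds 0) := by
      have := (tendsto_pow_atTop_nhds_zero_of_lt_one (r := (1 / 2 : ℝ)) (by norm_num)
        (by norm_num)).mul_const (T 0)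
      rwa [zero_mul] at this
    refine squeeze_zero (fun t => (hT0 t).le) (fun t => ?_) h1
    have := hT 0 t (Nat.zero_le t)
    rwa [Nat.sub_zero] at this
  obtain ⟨j0, hj0⟩ := Filter.eventually_atTop.mp
    (hTlim.eventually (ge_mem_nhds (show (0 : ℝ) < R / 4 by positivity)))
  -- the Vitali families
  have hV : ∀ j, ∃ V : Finset W, j0 ≤ j → (∀ w ∈ V, w ∈ L j) ∧
      (V : Set W).PairwiseDisjoint (fun w => Metric.ball (x w) (T j * r w)) ∧
      (∀ w ∈ V, Metric.ball (x w) (T j * r w) ⊆ Metric.ball z R) ∧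
      R ^ d ≤ 5 ^ d * ∑ w ∈ V, (2 * (T j * r w)) ^ d := by
    intro j
    by_cases hj : j0 ≤ j
    · obtain ⟨V, hV⟩ := vitali_level x (fun w => T j * r w) (L j) z hR
        (fun w _ => mul_pos (hT0 j) (hr w)) (fun w _ => by
          have h1 := hj0 j hj
          have h2 := hr1 w
          have h3 := (hr w).le
          have h4 := (hT0 j).le
          nlinarith) (hdir j)
      exact ⟨V, fun _ => hV⟩
    · exact ⟨∅, fun h => absurd h hj⟩
  choose V hV using hV
  set κ0 : ℝ := R ^ d / (2 * 5 ^ d) with hκ0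
  have hκ0pos : 0 < κ0 := by positivity
  have hfinE : volume (E ∩ Metric.ball z R) ≠ ⊤ :=
    ne_top_of_le_ne_top measure_ball_lt_top.ne (measure_mono Set.inter_subset_right)
  set S : ℝ := volume.real (E ∩ Metric.ball z R) with hS
  have hcen : ∀ j, j0 ≤ j → ∀ w ∈ V j, x w ∈ Metric.ball z R := fun j hj w hw =>
    (hV j hj).2.2.1 w hw (Metric.mem_ball_self (mul_pos (hT0 j) (hr w)))
  -- good and bad parts
  set bad : ℕ → Finset W := fun j => (V j).filter (fun w => T j < δ (τ w)) with hbad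
  set good : ℕ → Finset W := fun j => (V j).filter (fun w => ¬ T j < δ (τ w)) with hgood
  have hRd : R ^ d = κ0 * (2 * 5 ^ d) := by
    rw [hκ0]
    field_simp
  by_cases hcase : ∃ j, j0 ≤ j ∧ κ0 ≤ ∑ w ∈ bad j, (2 * (T j * r w)) ^ d
  · obtain ⟨j, hj, hsum⟩ := hcase
    have hsub : (⋃ w ∈ bad j, Metric.ball (x w) (T j * r w)) ⊆ E ∩ Metric.ball z R := by
      refine Set.iUnion₂_subset fun w hw => Set.subset_inter ?_ ?_
      · obtain ⟨hw1, hw2⟩ := Finset.mem_filter.mp hw
        refine Set.Subset.trans ?_ (hhit j w ((hV j hj).1 w hw1) (hcen j hj w hw1))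
        exact Metric.ball_subset_ball (mul_le_mul_of_nonneg_right hw2.le (hr w).le)
      · exact (hV j hj).2.2.1 w (Finset.mem_filter.mp hw).1
    have hdisj : ((bad j : Finset W) : Set W).PairwiseDisjoint
        (fun w => Metric.ball (x w) (T j * r w)) :=
      (hV j hj).2.1.subset (by exact_mod_cast Finset.filter_subset _ _)
    have e2 : volume.real (⋃ w ∈ bad j, Metric.ball (x w) (T j * r w))
        = ∑ w ∈ bad j, (2 * (T j * r w)) ^ d := by
      rw [measureReal_biUnion_finset hdisj (fun i _ => Metric.isOpen_ball.measurableSet)]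
      exact Finset.sum_congr rfl fun w _ => vol_ball (x w) (mul_pos (hT0 j) (hr w))
    have h1 : κ0 ≤ S := by
      refine hsum.trans ?_
      rw [← e2]
      exact measureReal_mono hsub hfinE
    rw [hRd]
    have h2 : (2 : ℝ) * 5 ^ d ≤ 44 * 150 ^ d := by
      have : (5 : ℝ) ^ d ≤ 150 ^ d := pow_le_pow_left₀ (by norm_num) (by norm_num) d
      have : (0 : ℝ) < 5 ^ d := by positivity
      linarith
    have hS0 : 0 ≤ S := hκ0pos.le.trans h1
    calc κ0 * (2 * 5 ^ d) ≤ S * (44 * 150 ^ d) := mul_le_mul h1 h2 (by positivity) hS0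
      _ = 44 * 150 ^ d * S := by ring
  · push_neg at hcase
    have hgoodsum : ∀ j, j0 ≤ j → κ0 ≤ ∑ w ∈ good j, (2 * (T j * r w)) ^ d := by
      intro j hj
      have h1 := hcase j hj
      have h2 := (hV j hj).2.2.2
      have h3 : ∑ w ∈ bad j, (2 * (T j * r w)) ^ d + ∑ w ∈ good j, (2 * (T j * r w)) ^ d
          = ∑ w ∈ V j, (2 * (T j * r w)) ^ d := Finset.sum_filter_add_sum_filter_not _ _ _
      have h5 : (0 : ℝ) < 5 ^ d := by positivity
      have h4 : 2 * κ0 ≤ ∑ w ∈ V j, (2 * (T j * r w)) ^ d := by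
        rw [hRd] at h2
        have : 5 ^ d * (2 * κ0) ≤ 5 ^ d * ∑ w ∈ V j, (2 * (T j * r w)) ^ d := by
          calc 5 ^ d * (2 * κ0) = κ0 * (2 * 5 ^ d) := by ring
            _ ≤ _ := h2
        exact le_of_mul_le_mul_left this h5
      linarith
    -- enough levels
    have hex : ∃ J : Finset ℕ, (∀ j ∈ J, j0 ≤ j) ∧ 1 ≤ ∑ j ∈ J, (δ j / T j) ^ d := by
      by_contra hno
      push_neg at hno
      apply hdiv
      have hnn : ∀ j, 0 ≤ (δ j / T j) ^ d := fun j => by
        have := hδ0 j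
        have := hT0 j
        positivity
      refine summable_of_sum_le (c := ∑ j ∈ Finset.range j0, (δ j / T j) ^ d + 1) hnn ?_
      intro J
      have h1 := hno (J.filter (fun j => j0 ≤ j)) (fun j hj => (Finset.mem_filter.mp hj).2)
      have h2 : ∑ j ∈ J.filter (fun j => ¬ j0 ≤ j), (δ j / T j) ^ d
          ≤ ∑ j ∈ Finset.range j0, (δ j / T j) ^ d := by
        apply Finset.sum_le_sum_of_subset_of_nonneg
        · intro j hj
          rw [Finset.mem_range]
          exact not_le.mp (Finset.mem_filter.mp hj).2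
        · intro j _ _
          exact hnn j
      have h3 := Finset.sum_filter_add_sum_filter_not J (fun j => j0 ≤ j)
        (fun j => (δ j / T j) ^ d)
      linarith
    obtain ⟨J, hJ, hU⟩ := hex
    have key := second_moment x r τ δ T hd hr hδ0 hT0 hτr hδ hT J good
      (fun j hj w hw => hL1 j w ((hV j (hJ j hj)).1 w (Finset.mem_filter.mp hw).1))
      (fun j _ w hw => not_lt.mp (Finset.mem_filter.mp hw).2)
      (fun j hj => (hV j (hJ j hj)).2.1.subset (by exact_mod_cast Finset.filter_subset _ _))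
      (Metric.ball z R) measure_ball_lt_top.ne
      (fun j hj w hw => (hV j (hJ j hj)).2.2.1 w (Finset.mem_filter.mp hw).1)
      κ0 hκ0pos.le (fun j hj => hgoodsum j (hJ j hj)) hU
    have hsub : (⋃ j ∈ J, ⋃ w ∈ good j, Metric.ball (x w) (δ (τ w) * r w))
        ⊆ E ∩ Metric.ball z R := by
      refine Set.iUnion₂_subset fun j hj => Set.iUnion₂_subset fun w hw =>
        Set.subset_inter ?_ ?_
      · have hw1 := (Finset.mem_filter.mp hw).1
        exact hhit j w ((hV j (hJ j hj)).1 w hw1) (hcen j (hJ j hj) w hw1)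
      · obtain ⟨hw1, hw2⟩ := Finset.mem_filter.mp hw
        refine Set.Subset.trans ?_ ((hV j (hJ j hj)).2.2.1 w hw1)
        exact Metric.ball_subset_ball (mul_le_mul_of_nonneg_right (not_lt.mp hw2) (hr w).le)
    have h1 : volume.real (⋃ j ∈ J, ⋃ w ∈ good j, Metric.ball (x w) (δ (τ w) * r w)) ≤ S :=
      measureReal_mono hsub hfinE
    rw [vol_ball z hR] at key
    have h2 : κ0 ^ 2 ≤ 11 * 3 ^ d * (2 * R) ^ d * S :=
      key.trans (mul_le_mul_of_nonneg_left h1 (by positivity))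
    -- conclude
    have h3 : κ0 * (R ^ d) ≤ (44 * 150 ^ d * S) * κ0 := by
      have e1 : κ0 * R ^ d = κ0 ^ 2 * (2 * 5 ^ d) := by
        rw [hRd]
        ring
      have e2 : (11 * 3 ^ d * (2 * R) ^ d * S) * (2 * 5 ^ d) = (44 * 150 ^ d * S) * κ0 := by
        rw [mul_pow, hRd]
        have : (150 : ℝ) ^ d = 3 ^ d * 2 ^ d * 5 ^ d * 5 ^ d := by
          rw [← mul_pow, ← mul_pow, ← mul_pow]
          norm_num
        rw [this]
        ring
      rw [e1, ← e2]
      exact mul_le_mul_of_nonneg_right h2 (by positivity)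
    rw [mul_comm κ0] at h3
    exact le_of_mul_le_mul_right h3 hκ0pos

end Pool.Agent.Helper47.KG
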