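import Mathlib

set_option autoImplicit false

open MeasureTheory

namespace Pool.Agent.Helper47.KG

variable {d : ℕ}

theorem vol_ball (x : Fin d → ℝ) {r : ℝ} (hr : 0 < r) :
    volume.real (Metric.ball x r) = (2 * r) ^ d := by
  rw [measureReal_def, Real.volume_pi_ball x hr, ENNReal.toReal_ofReal (by positivity),
    Fintype.card_fin]

/-- packing: disjoint balls of radius at most `r` which meet a ball of radius `r` -/
theorem pack {ι : Type*} (I : Finset ι) (x : ι → Fin d → ℝ) (ρ : ι → ℝ) (y : Fin d → ℝ) {r : ℝ}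
    (hr : 0 < r) (hρ : ∀ i ∈ I, 0 < ρ i) (hle : ∀ i ∈ I, ρ i ≤ r)
    (hdisj : (I : Set ι).PairwiseDisjoint (fun i => Metric.ball (x i) (ρ i)))
    (hmeet : ∀ i ∈ I, (Metric.ball (x i) (ρ i) ∩ Metric.ball y r).Nonempty) :
    ∑ i ∈ I, (2 * ρ i) ^ d ≤ 3 ^ d * (2 * r) ^ d := by
  have h1 : ∑ i ∈ I, (2 * ρ i) ^ d = ∑ i ∈ I, volume.real (Metric.ball (x i) (ρ i)) :=
    Finset.sum_congr rfl fun i hi => (vol_ball (x i) (hρ i hi)).symm
  have h2 : volume.real (⋃ i ∈ I, Metric.ball (x i) (ρ i))
      = ∑ i ∈ I, volume.real (Metric.ball (x i) (ρ i)) := by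
    apply measureReal_biUnion_finset hdisj
    intro i _
    exact Metric.isOpen_ball.measurableSet
  have h3 : (⋃ i ∈ I, Metric.ball (x i) (ρ i)) ⊆ Metric.ball y (3 * r) := by
    intro z hz
    simp only [Set.mem_iUnion, exists_prop] at hz
    obtain ⟨i, hi, hz⟩ := hz
    obtain ⟨p, hp1, hp2⟩ := hmeet i hi
    rw [Metric.mem_ball] at *
    have e1 := dist_triangle z (x i) y
    have e2 := dist_triangle (x i) p y
    rw [dist_comm (x i) p] at e2
    have := hle i hi
    linarith
  rw [h1, ← h2]
  refine (measureReal_mono h3 measure_ball_lt_top.ne).trans ?_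
  rw [vol_ball y (by positivity), ← mul_pow]
  apply le_of_eq
  congr 1
  ring

/-- packing: disjoint balls of radius more than `r` which meet a ball of radius `r` -/
theorem pack_card {ι : Type*} (I : Finset ι) (x : ι → Fin d → ℝ) (ρ : ι → ℝ) (y : Fin d → ℝ)
    {r : ℝ} (hr : 0 < r) (hlt : ∀ i ∈ I, r < ρ i)
    (hdisj : (I : Set ι).PairwiseDisjoint (fun i => Metric.ball (x i) (ρ i)))
    (hmeet : ∀ i ∈ I, (Metric.ball (x i) (ρ i) ∩ Metric.ball y r).Nonempty) :
    (I.card : ℝ) ≤ 3 ^ d := by
  classical
  have hex : ∀ i : ι, ∃ z : Fin d → ℝ, i ∈ I → Metric.ball z r ⊆ Metric.ball (x i) (ρ i) ∧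
      (Metric.ball z r ∩ Metric.ball y r).Nonempty := by
    intro i
    by_cases hi : i ∈ I
    · obtain ⟨p, hp1, hp2⟩ := hmeet i hi
      have hρ : 0 < ρ i := hr.trans (hlt i hi)
      refine ⟨p + (r / ρ i) • (x i - p), fun _ => ⟨?_, p, ?_, hp2⟩⟩
      · apply Metric.ball_subset_ball'
        have h1 : dist (p + (r / ρ i) • (x i - p)) (x i) ≤ ρ i - r := by
          have h2 : p + (r / ρ i) • (x i - p) - x i = (1 - r / ρ i) • (p - x i) := by
            rw [smul_sub, smul_sub, sub_smul, sub_smul, one_smul, one_smul]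
            abel
          rw [dist_eq_norm, h2, norm_smul, Real.norm_eq_abs]
          have h3 : 0 ≤ 1 - r / ρ i := by
            rw [sub_nonneg, div_le_one hρ]
            exact (hlt i hi).le
          rw [abs_of_nonneg h3, ← dist_eq_norm]
          have h4 : dist p (x i) ≤ ρ i := (Metric.mem_ball.mp hp1).le
          calc (1 - r / ρ i) * dist p (x i) ≤ (1 - r / ρ i) * ρ i :=
                mul_le_mul_of_nonneg_left h4 h3
            _ = ρ i - r := by field_simp
        linarith
      · rw [Metric.mem_ball, dist_eq_norm]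
        have h2 : p - (p + (r / ρ i) • (x i - p)) = (r / ρ i) • (p - x i) := by
          rw [smul_sub, smul_sub]
          abel
        rw [h2, norm_smul, Real.norm_eq_abs, abs_of_pos (by positivity), ← dist_eq_norm]
        have h4 : dist p (x i) < ρ i := (Metric.mem_ball.mp hp1)
        calc r / ρ i * dist p (x i) < r / ρ i * ρ i :=
                mul_lt_mul_of_pos_left h4 (by positivity)
            _ = r := by field_simp
    · exact ⟨y, fun h => absurd h hi⟩
  choose z hz using hex
  have := pack I z (fun _ => r) y hr (fun _ _ => hr) (fun _ _ => le_rfl) (by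
    intro i hi j hj hij
    exact (hdisj hi hj hij).mono (hz i hi).1 (hz j hj).1) (fun i hi => (hz i hi).2)
  rw [Finset.sum_const, nsmul_eq_mul] at this
  have hp : (0 : ℝ) < (2 * r) ^ d := by positivity
  exact le_of_mul_le_mul_right this hp

/-- Cauchy-Schwarz for a weighted finite family of sets -/
theorem cauchy_schwarz_sets {α ι : Type*} [MeasurableSpace α] (μ : Measure α) (P : Finset ι)
    (A : ι → Set α) (hA : ∀ i, MeasurableSet (A i)) (hfin : ∀ i, μ (A i) ≠ ⊤) (c : ι → ℝ) :
    (∑ i ∈ P, c i * μ.real (A i)) ^ 2 ≤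
      μ.real (⋃ i ∈ P, A i) * ∑ i ∈ P, ∑ j ∈ P, c i * c j * μ.real (A i ∩ A j) := by
  classical
  set S : Set α := ⋃ i ∈ P, A i with hS
  have hSm : MeasurableSet S := P.measurableSet_biUnion fun i _ => hA i
  have hSf : μ S ≠ ⊤ := by
    refine ne_top_of_le_ne_top ?_ (measure_biUnion_finset_le P A)
    exact ENNReal.sum_ne_top.mpr fun i _ => hfin i
  set G : ℝ := ∑ i ∈ P, c i * μ.real (A i) with hG
  set F : ℝ := ∑ i ∈ P, ∑ j ∈ P, c i * c j * μ.real (A i ∩ A j) with hF
  have hint : ∀ i, Integrable ((A i).indicator (fun _ => (1 : ℝ))) μ := fun i =>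
    (integrable_indicator_iff (hA i)).mpr (integrableOn_const (hfin i))
  have hintij : ∀ i j, Integrable ((A i ∩ A j).indicator (fun _ => (1 : ℝ))) μ := fun i j =>
    (integrable_indicator_iff ((hA i).inter (hA j))).mpr
      (integrableOn_const (ne_top_of_le_ne_top (hfin i) (measure_mono Set.inter_subset_left)))
  have hintS : Integrable (S.indicator (fun _ => (1 : ℝ))) μ :=
    (integrable_indicator_iff hSm).mpr (integrableOn_const hSf)
  have hSi : ∀ i ∈ P, A i ⊆ S := fun i hi => Set.subset_biUnion_of_mem (u := fun i => A i) hi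
  -- the quadratic inequality
  have key : ∀ l : ℝ, 0 ≤ F - 2 * l * G + l ^ 2 * μ.real S := by
    intro l
    have e1 : ∀ a : α, (∑ i ∈ P, c i * (A i).indicator (fun _ => (1 : ℝ)) a
          - l * S.indicator (fun _ => (1 : ℝ)) a) ^ 2
        = ∑ i ∈ P, ∑ j ∈ P, c i * c j * (A i ∩ A j).indicator (fun _ => (1 : ℝ)) a
          - 2 * l * ∑ i ∈ P, c i * (A i).indicator (fun _ => (1 : ℝ)) a
          + l ^ 2 * S.indicator (fun _ => (1 : ℝ)) a := by
      intro a
      have hmul : ∀ i j, (A i ∩ A j).indicator (fun _ => (1 : ℝ)) a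
          = (A i).indicator (fun _ => (1 : ℝ)) a * (A j).indicator (fun _ => (1 : ℝ)) a := by
        intro i j
        by_cases hi : a ∈ A i <;> by_cases hj : a ∈ A j <;> simp [hi, hj]
      have hiS : ∀ i ∈ P, (A i).indicator (fun _ => (1 : ℝ)) a * S.indicator (fun _ => (1 : ℝ)) a
          = (A i).indicator (fun _ => (1 : ℝ)) a := by
        intro i hi
        by_cases h : a ∈ A i
        · have := hSi i hi h
          simp [h, this]
        · simp [h]
      have hSS : S.indicator (fun _ => (1 : ℝ)) a * S.indicator (fun _ => (1 : ℝ)) a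
          = S.indicator (fun _ => (1 : ℝ)) a := by
        by_cases h : a ∈ S <;> simp [h]
      have h1 : (∑ i ∈ P, c i * (A i).indicator (fun _ => (1 : ℝ)) a)
          * (∑ j ∈ P, c j * (A j).indicator (fun _ => (1 : ℝ)) a)
          = ∑ i ∈ P, ∑ j ∈ P, c i * c j * (A i ∩ A j).indicator (fun _ => (1 : ℝ)) a := by
        rw [Finset.sum_mul_sum]
        refine Finset.sum_congr rfl fun i _ => Finset.sum_congr rfl fun j _ => ?_
        rw [hmul]
        ring
      have h2 : (∑ i ∈ P, c i * (A i).indicator (fun _ => (1 : ℝ)) a)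
          * S.indicator (fun _ => (1 : ℝ)) a
          = ∑ i ∈ P, c i * (A i).indicator (fun _ => (1 : ℝ)) a := by
        rw [Finset.sum_mul]
        refine Finset.sum_congr rfl fun i hi => ?_
        rw [mul_assoc, hiS i hi]
      rw [← h1]
      set X := ∑ i ∈ P, c i * (A i).indicator (fun _ => (1 : ℝ)) a
      set Y := S.indicator (fun _ => (1 : ℝ)) a
      linear_combination (-2 * l) * h2 + l ^ 2 * hSS
    have e2 : 0 ≤ ∫ a, (∑ i ∈ P, c i * (A i).indicator (fun _ => (1 : ℝ)) a
          - l * S.indicator (fun _ => (1 : ℝ)) a) ^ 2 ∂μ :=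
      integral_nonneg fun a => sq_nonneg _
    have i1 : Integrable (fun a => ∑ i ∈ P, ∑ j ∈ P, c i * c j *
        (A i ∩ A j).indicator (fun _ => (1 : ℝ)) a) μ :=
      integrable_finsetSum _ fun i _ => integrable_finsetSum _ fun j _ =>
        (hintij i j).const_mul _
    have i2 : Integrable (fun a => ∑ i ∈ P, c i * (A i).indicator (fun _ => (1 : ℝ)) a) μ :=
      integrable_finsetSum _ fun i _ => (hint i).const_mul _
    have i3 : Integrable (fun a => l ^ 2 * S.indicator (fun _ => (1 : ℝ)) a) μ :=
      hintS.const_mul _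
    have i2' : Integrable (fun a => 2 * l * ∑ i ∈ P, c i * (A i).indicator (fun _ => (1 : ℝ)) a) μ :=
      i2.const_mul _
    have i12 : Integrable (fun a => ∑ i ∈ P, ∑ j ∈ P, c i * c j *
        (A i ∩ A j).indicator (fun _ => (1 : ℝ)) a
        - 2 * l * ∑ i ∈ P, c i * (A i).indicator (fun _ => (1 : ℝ)) a) μ := i1.sub i2'
    have e3 : ∫ a, (∑ i ∈ P, c i * (A i).indicator (fun _ => (1 : ℝ)) a
          - l * S.indicator (fun _ => (1 : ℝ)) a) ^ 2 ∂μ = F - 2 * l * G + l ^ 2 * μ.real S := by
      simp only [e1]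
      rw [integral_add i12 i3, integral_sub i1 i2',
        integral_const_mul, integral_const_mul, integral_finsetSum _ fun i _ =>
          (hint i).const_mul _, integral_finsetSum _ fun i _ => integrable_finsetSum _
          fun j _ => (hintij i j).const_mul _]
      congr 1
      · congr 1
        · refine Finset.sum_congr rfl fun i _ => ?_
          rw [integral_finsetSum _ fun j _ => (hintij i j).const_mul _]
          refine Finset.sum_congr rfl fun j _ => ?_
          rw [integral_const_mul, integral_indicator_const _ ((hA i).inter (hA j)), smul_eq_mul,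
            mul_one]
        · congr 1
          refine Finset.sum_congr rfl fun i _ => ?_
          rw [integral_const_mul, integral_indicator_const _ (hA i), smul_eq_mul, mul_one]
      · rw [integral_indicator_const _ hSm, smul_eq_mul, mul_one]
    rw [e3] at e2
    exact e2
  have hS0 : 0 ≤ μ.real S := measureReal_nonneg
  rcases hS0.eq_or_lt with h0 | hpos
  · have hG0 : G = 0 := by
      apply Finset.sum_eq_zero
      intro i hi
      have : μ.real (A i) = 0 := by
        apply le_antisymm _ measureReal_nonneg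
        rw [h0]
        exact measureReal_mono (hSi i hi) hSf
      rw [this, mul_zero]
    rw [hG0, ← h0]
    simp
  · have := key (G / μ.real S)
    have e : F - 2 * (G / μ.real S) * G + (G / μ.real S) ^ 2 * μ.real S
        = F - G ^ 2 / μ.real S := by
      field_simp
      ring
    rw [e, sub_nonneg, div_le_iff₀ hpos] at this
    linarith

end Pool.Agent.Helper47.KG
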